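import Pool.Agent.H.MP_1dfc85_pr.C

namespace Pool.Agent.Results.MP_1dfc85_pr.Yes

open Finset Function Filter Topology Pool.Agent.H.MP_1dfc85_pr

open Classical in
/-- The probability that the estimator `A` outputs the hidden set.  Here `A G H S` is the probability of the output
`S` on the input `(G, H)`, the graph `G` is `ER(n, p)`, the injection `f` (the inverse of the relabelling `π`) is
uniform, the hidden set is the image of `f`, and the relabelled induced subgraph is `G.comap f`. -/
noncomputable def succ (n m : ℕ) (p : ℝ) (A : SimpleGraph (Fin n) → SimpleGraph (Fin m) → Finset (Fin n) → ℝ) : ℝ :=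
  ∑ G : SimpleGraph (Fin n), p ^ G.edgeFinset.card * (1 - p) ^ (n.choose 2 - G.edgeFinset.card) *
    ((∑ f : Fin m ↪ Fin n, A G (G.comap f) (univ.map f)) / Fintype.card (Fin m ↪ Fin n))

open Classical in
noncomputable def lab (n : ℕ) : SimpleGraph (Fin n) ≃ (Sl n → Bool) :=
  Equiv.ofBijective (fun G e => decide (e.1 ∈ G.edgeSet)) ⟨fun G H h => by
    ext a b
    by_cases e : a = b
    · simp [e]
    · simpa using congrFun h ⟨s(a, b), by simpa⟩, fun K => ⟨.fromEdgeSet {e | ∃ h, K ⟨e, h⟩ = true}, by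
    funext e
    simp [e.2]⟩⟩

lemma lab_comap {n m : ℕ} (G : SimpleGraph (Fin n)) (f : Fin m ↪ Fin n) : lab m (G.comap f) = lab n G ∘ ind f := by
  funext ⟨e, he⟩
  induction e using Sym2.ind
  simp [lab, ind]

open Classical in
lemma w_lab {n : ℕ} (p : ℝ) (G : SimpleGraph (Fin n)) :
    w p (lab n G) = p ^ G.edgeFinset.card * (1 - p) ^ (n.choose 2 - G.edgeFinset.card) := by
  have h1 : (univ.filter fun e => lab n G e = true).card = G.edgeFinset.card :=
    card_nbij Subtype.val (fun e he => by simpa [lab] using he) Subtype.val_injective.injOn fun e he =>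
      ⟨⟨e, G.not_isDiag_of_mem_edgeFinset he⟩, by simpa [lab] using he, rfl⟩
  have h2 := card_filter_add_card_filter_not (s := univ) fun e => lab n G e = true
  rw [card_univ, Sym2.card_subtype_not_diag, Fintype.card_fin, h1] at h2
  rw [w, prod_ite, prod_const, prod_const, h1, ← h2, Nat.add_sub_cancel_left]

theorem result (m : ℕ → ℕ) (p : ℕ → ℝ) (hm : ∀ᶠ n in atTop, 1 ≤ m n ∧ m n ≤ n - 1) (hp : ∀ n, 0 < p n ∧ p n < 1)
    (h : Tendsto (fun n : ℕ => (m n : ℝ) / 2 * Real.binEntropy (p n) - Real.log n) atTop atBot)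
    (A : ∀ n, SimpleGraph (Fin n) → SimpleGraph (Fin (m n)) → Finset (Fin n) → ℝ)
    (h0 : ∀ n G H S, 0 ≤ A n G H S) (h1 : ∀ n G H, ∑ S, A n G H S ≤ 1) :
    ¬ Tendsto (fun n => succ n (m n) (p n) (A n)) atTop (𝓝 1) := by
  intro h2
  have c0 : 0 < 1 / 3 * (Real.exp (-8) / (1 + 2 * Real.exp (-8))) / 2 := by positivity
  obtain ⟨n, ⟨m0, m1⟩, h3, h4⟩ := (hm.and ((h.eventually_le_atBot (-1200)).and
    (h2.eventually_const_lt (sub_lt_self 1 c0)))).exists
  have hn : m n < n := by omega
  have := main' (A := fun G H => A n ((lab n).symm G) ((lab _).symm H)) (hp n).1 (hp n).2 m0 hn h3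
    (fun _ _ => h0 _ _ _) fun _ _ => h1 _ _ _
  rw [← (lab n).sum_comp] at this
  simp only [← lab_comap, Equiv.symm_apply_apply, w_lab] at this
  simp only [succ, ← mul_div_assoc _ (∑ _, _), ← sum_div, Fintype.card_embedding_eq, Fintype.card_fin] at h4
  rw [lt_div_iff₀ (Nat.cast_pos.2 (Nat.descFactorial_pos.2 hn.le))] at h4
  linarith

end Pool.Agent.Results.MP_1dfc85_pr.Yes
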